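import Pool.Agent.Run7.h716.ZW.Alg

/-!
# Pieces GERM and GMONO of project ZW
-/

set_option autoImplicit false

namespace Run7.h220.ZW

open Run7.h716.ZW
open Filter

theorem t_GMONO : S_GMONO := by
  intro G _ _ _ _
  constructor
  · refine ⟨fun a b c h => ?_⟩
    revert h
    refine Germ.inductionOn₃ a b c fun f g k h => ?_
    rw [Germ.coe_le] at h
    show ((f * g : ℕ → G) : Germ (atTop : Filter ℕ) G) ≤ ((f * k : ℕ → G) : Germ (atTop : Filter ℕ) G)
    rw [Germ.coe_le]
    filter_upwards [h] with n hn
    exact mul_le_mul_right hn (f n)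
  · refine ⟨fun a b c h => ?_⟩
    revert h
    refine Germ.inductionOn₃ a b c fun f g k h => ?_
    rw [Germ.coe_le] at h
    show ((g * f : ℕ → G) : Germ (atTop : Filter ℕ) G) ≤ ((k * f : ℕ → G) : Germ (atTop : Filter ℕ) G)
    rw [Germ.coe_le]
    filter_upwards [h] with n hn
    exact mul_le_mul_left hn (f n)

theorem t_GERM : S_GERM := by
  intro G _ _ k m w x
  have h1 : ∀ v : FreeGroup (Fin k),
      FreeGroup.lift (fun l => (↑(x l) : Germ (atTop : Filter ℕ) G)) v =
        ((fun n => FreeGroup.lift (fun l => x l n) v : ℕ → G) : Germ (atTop : Filter ℕ) G) := by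
    intro v
    induction v using FreeGroup.induction_on with
    | C1 =>
      rw [map_one]
      have : (fun n => FreeGroup.lift (fun l => x l n) (1 : FreeGroup (Fin k))) =
          (1 : ℕ → G) := by
        funext n
        simp
      rw [this]
      rfl
    | of i =>
      rw [FreeGroup.lift_apply_of]
      have : (fun n => FreeGroup.lift (fun l => x l n) (FreeGroup.of i)) = x i := by
        funext n
        simp
      rw [this]
    | inv_of i h =>
      rw [map_inv, FreeGroup.lift_apply_of]
      have : (fun n => FreeGroup.lift (fun l => x l n) (FreeGroup.of i)⁻¹) = (x i)⁻¹ := by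
        funext n
        simp
      rw [this]
      rfl
    | mul a b ha hb =>
      rw [map_mul, ha, hb]
      have : (fun n => FreeGroup.lift (fun l => x l n) (a * b)) =
          (fun n => FreeGroup.lift (fun l => x l n) a) *
            (fun n => FreeGroup.lift (fun l => x l n) b) := by
        funext n
        simp
      rw [this]
      rfl
  have h2 : ∀ i, (Finset.univ.inf' Finset.univ_nonempty (fun j : Fin (m + 1) =>
      FreeGroup.lift (fun l => (↑(x l) : Germ (atTop : Filter ℕ) G)) (w i j))) =
      ((Finset.univ.inf' Finset.univ_nonempty (fun j : Fin (m + 1) =>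
        (fun n => FreeGroup.lift (fun l => x l n) (w i j))) : ℕ → G) :
          Germ (atTop : Filter ℕ) G) := by
    intro i
    rw [Finset.apply_inf'_eq_inf'_comp Finset.univ_nonempty
      (fun f : ℕ → G => (f : Germ (atTop : Filter ℕ) G)) (fun _ _ => rfl)]
    refine Finset.inf'_congr _ rfl fun j _ => ?_
    exact h1 (w i j)
  have h3 : (Finset.univ.sup' Finset.univ_nonempty (fun i : Fin (m + 1) =>
      Finset.univ.inf' Finset.univ_nonempty (fun j : Fin (m + 1) =>
      FreeGroup.lift (fun l => (↑(x l) : Germ (atTop : Filter ℕ) G)) (w i j)))) =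
      ((Finset.univ.sup' Finset.univ_nonempty (fun i : Fin (m + 1) =>
        Finset.univ.inf' Finset.univ_nonempty (fun j : Fin (m + 1) =>
        (fun n => FreeGroup.lift (fun l => x l n) (w i j)))) : ℕ → G) :
          Germ (atTop : Filter ℕ) G) := by
    rw [Finset.apply_sup'_eq_sup'_comp Finset.univ_nonempty
      (fun f : ℕ → G => (f : Germ (atTop : Filter ℕ) G)) (fun _ _ => rfl)]
    refine Finset.sup'_congr _ rfl fun i _ => ?_
    exact h2 i
  rw [h3]
  have h4 : (1 : Germ (atTop : Filter ℕ) G) = ((1 : ℕ → G) : Germ (atTop : Filter ℕ) G) := rfl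
  rw [h4, Germ.coe_eq]
  refine eventually_congr (Eventually.of_forall fun n => ?_)
  rw [Finset.sup'_apply]
  simp only [Finset.inf'_apply, Pi.one_apply]

end Run7.h220.ZW
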